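import Pool.Agent.helper72.UP.Spec

/-! # Row ASY of the project UP (MP_7e34bc_co, Q2) -/

set_option autoImplicit false

namespace Pool.Agent.helper72.UP

open Finset

theorem ASY (h1 : DEC_stmt) (h2 : VAN_stmt) : ASY_stmt := by
  intro n k hn hk hle
  rcases Nat.lt_or_ge n 2 with h | hn2
  · have h1n : n = 1 := by omega
    subst h1n
    have h0 : TT 1 k = 0 := by
      unfold TT
      rw [Finset.Ioc_eq_empty_of_le (by norm_num)]
      simp
    rw [h0]
    simp
  have hnR : (2 : ℝ) ≤ n := by exact_mod_cast hn2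
  have hlog : (0.69 : ℝ) ≤ Real.log n := by
    have e1 := Real.log_two_gt_d9
    have e2 := Real.log_le_log (by norm_num : (0 : ℝ) < 2) hnR
    linarith
  have hnl : (1 : ℝ) ≤ n * Real.log n := by nlinarith
  set L := Real.sqrt (n * Real.log n) with hL
  have hL1 : 1 ≤ L := by
    rw [hL]
    exact Real.one_le_sqrt.2 hnl
  have hL2 : L ^ 2 = n * Real.log n := by
    rw [hL]
    exact Real.sq_sqrt (by linarith)
  have hkn : (k : ℝ) ≤ n := by exact_mod_cast hk
  have hn12 : (12 : ℝ) ≤ n := by linarith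
  have hn12' : 12 ≤ n := by exact_mod_cast hn12
  have hn0 : (0 : ℝ) < n := by linarith
  have hi0 : uu n ((n + 3) / 4) ≤ n.choose (n / 2) := by
    have hv := h2 n 0 (Nat.zero_le _)
    have : uu n ((n + 3) / 4) ≤ TT n 0 := by
      unfold TT
      exact Finset.single_le_sum (f := fun i => uu n i) (fun _ _ => Nat.zero_le _)
        (by rw [Finset.mem_Ioc]; omega)
    omega
  have hi0R : (uu n ((n + 3) / 4) : ℝ) ≤ (n.choose (n / 2) : ℝ) := by exact_mod_cast hi0
  have hterm : ∀ i ∈ Ioc (k / 2) (n / 2), (uu n i : ℝ) ≤ (n.choose (n / 2) : ℝ) * (1 / (n : ℝ) ^ 2) := by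
    intro i hi
    rw [Finset.mem_Ioc] at hi
    have h2i : k + 1 ≤ 2 * i := by omega
    have h2iR : (k : ℝ) + 1 ≤ 2 * (i : ℝ) := by exact_mod_cast h2i
    have h4 : 4 * ((n + 3) / 4) ≤ n + 3 := Nat.mul_div_le _ _
    have h4R : 4 * (((n + 3) / 4 : ℕ) : ℝ) ≤ n + 3 := by exact_mod_cast h4
    have hi0i : (n + 3) / 4 ≤ i := by
      by_contra hcon
      have hcon' : i + 1 ≤ (n + 3) / 4 := by omega
      have hconR : (i : ℝ) + 1 ≤ (((n + 3) / 4 : ℕ) : ℝ) := by exact_mod_cast hcon'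
      linarith
    obtain ⟨d, rfl⟩ := Nat.exists_eq_add_of_le hi0i
    rw [Nat.cast_add] at h2iR
    have hd : 3 * L - 1 / 4 ≤ (d : ℝ) := by linarith
    have hdec := h1 n ((n + 3) / 4) d (by omega) (by omega) hn
    have hexp : Real.exp (-(4 * (d : ℝ) * ((d : ℝ) - 1) / n)) ≤ 1 / (n : ℝ) ^ 2 := by
      have he : 1 / (n : ℝ) ^ 2 = Real.exp (-(2 * Real.log n)) := by
        rw [Real.exp_neg, two_mul, Real.exp_add, Real.exp_log hn0, one_div, pow_two]
      rw [he]
      apply Real.exp_le_exp.2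
      rw [neg_le_neg_iff, le_div_iff₀ hn0]
      have e1 : 2 * Real.log n * n = 2 * L ^ 2 := by rw [hL2]; ring
      rw [e1]
      have e2 : 2 * L ≤ (d : ℝ) := by linarith
      have e3 : L ≤ (d : ℝ) - 1 := by linarith
      have e4 : (2 * L) * L ≤ (d : ℝ) * ((d : ℝ) - 1) :=
        mul_le_mul e2 e3 (by linarith) (by linarith)
      nlinarith [e4, sq_nonneg L]
    refine le_trans hdec (mul_le_mul hi0R hexp (Real.exp_pos _).le (Nat.cast_nonneg _))
  have hTT : (TT n k : ℝ) ≤ n * ((n.choose (n / 2) : ℝ) * (1 / (n : ℝ) ^ 2)) := by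
    unfold TT
    rw [Nat.cast_sum]
    refine le_trans (Finset.sum_le_card_nsmul _ _ _ hterm) ?_
    rw [nsmul_eq_mul]
    refine mul_le_mul_of_nonneg_right ?_ (by positivity)
    have : #(Ioc (k / 2) (n / 2)) ≤ n := by
      rw [Nat.card_Ioc]
      omega
    exact_mod_cast this
  have hfin : (n : ℝ) * (TT n k : ℝ) ≤ (n.choose (n / 2) : ℝ) := by
    have e1 := mul_le_mul_of_nonneg_left hTT hn0.le
    have e2 : (n : ℝ) * (n * ((n.choose (n / 2) : ℝ) * (1 / (n : ℝ) ^ 2))) =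
        (n.choose (n / 2) : ℝ) := by
      field_simp
    rw [e2] at e1
    exact e1
  exact_mod_cast hfin

end Pool.Agent.helper72.UP
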