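import Pool.Agent.helper72.UP.Spec

/-! # Row CRI of the project UP (MP_7e34bc_co, Q2) -/

set_option autoImplicit false

namespace Pool.Agent.helper72.UP

open Finset

theorem CRI (h1 : UPB_stmt) (h2 : UPC_stmt) (h3 : LOW_stmt) : CRI_stmt := by
  intro n k hk ht
  refine ⟨h3 n k, ?_⟩
  intro m hm
  obtain ⟨x, hx, hmx⟩ := h2 n k m hm
  exact hmx.trans (h1 n k x hk hx ht)

end Pool.Agent.helper72.UP
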